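import Mathlib
import Pool.Agent.U581.LB.Stm
import Pool.Agent.H383.Reps
import Pool.Agent.Helper112.Arith

/-! Project LB (helper581), package BLK: bounds of the blocks. -/

set_option autoImplicit false

namespace Pool.Agent.U97.LB

open Real Finset Pool.Agent.U581.LB

theorem r2_eq (m : ℕ) : r2 m = ((Pool.Agent.H383.Gauss.A m).ncard : ℝ) := by
  unfold r2
  congr 1
  rw [← Nat.card_coe_set_eq]
  symm
  apply Nat.card_congr
  refine ⟨fun z => ⟨(z.1.re, z.1.im), ?_⟩, fun p => ⟨⟨p.1.1, p.1.2⟩, ?_⟩, fun z => ?_, fun p => ?_⟩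
  · have := z.2
    rw [Pool.Agent.H383.Gauss.mem_A, Pool.Agent.H383.Gauss.norm_eq] at this
    exact this
  · rw [Pool.Agent.H383.Gauss.mem_A, Pool.Agent.H383.Gauss.norm_eq]
    exact p.2
  · rfl
  · rfl

theorem r2_nonneg (n : ℕ) : 0 ≤ r2 n := Nat.cast_nonneg _

theorem cf_nonneg (n : ℕ) : 0 ≤ cf n := by
  unfold cf
  have := r2_nonneg n
  positivity

theorem cf_le : ∃ A : ℝ, 0 < A ∧ ∀ n : ℕ, 1 ≤ n → cf n ≤ A * (n : ℝ) ^ (-(37 / 50) : ℝ) := by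
  obtain ⟨C, hC, h⟩ := Pool.Agent.Helper112.divisor_bound (1 / 100) (by norm_num)
  refine ⟨4 * C / π, by positivity, fun n hn => ?_⟩
  have h1 := Pool.Agent.H383.Gauss.card_A_le n hn
  have h2 : r2 n ≤ 4 * (C * (n : ℝ) ^ (1 / 100 : ℝ)) := by
    rw [r2_eq]
    calc ((Pool.Agent.H383.Gauss.A n).ncard : ℝ) ≤ ((4 * n.divisors.card : ℕ) : ℝ) := by
          exact_mod_cast h1
      _ = 4 * (n.divisors.card : ℝ) := by push_cast; ring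
      _ ≤ 4 * (C * (n : ℝ) ^ (1 / 100 : ℝ)) := mul_le_mul_of_nonneg_left (h n hn) (by norm_num)
  have hn0 : (0 : ℝ) < n := by exact_mod_cast hn
  have e : (n : ℝ) ^ (-(37 / 50) : ℝ) = (n : ℝ) ^ (1 / 100 : ℝ) * (n : ℝ) ^ (-(3 / 4) : ℝ) := by
    rw [← Real.rpow_add hn0]
    norm_num
  unfold cf
  calc r2 n / π * (n : ℝ) ^ (-(3 / 4) : ℝ)
      ≤ (4 * (C * (n : ℝ) ^ (1 / 100 : ℝ))) / π * (n : ℝ) ^ (-(3 / 4) : ℝ) := by gcongr
    _ = 4 * C / π * (n : ℝ) ^ (-(37 / 50) : ℝ) := by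
        rw [e]
        ring

theorem min_one {x s : ℝ} (hx : 0 < x) (hs0 : 0 ≤ s) (hs1 : s ≤ 1) :
    min 2 (2 * π * x) ≤ 2 * π * x ^ s := by
  rcases le_total x 1 with h | h
  · refine (min_le_right _ _).trans (mul_le_mul_of_nonneg_left ?_ (by positivity))
    have := Real.rpow_le_rpow_of_exponent_ge hx h hs1
    rwa [Real.rpow_one] at this
  · refine (min_le_left _ _).trans ?_
    have h1 := Real.one_le_rpow h hs0
    have h2 := Real.pi_gt_three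
    nlinarith

theorem min_two {x s : ℝ} (hx : 0 < x) (hs0 : 0 ≤ s) (hs1 : s ≤ 2) :
    min 2 (2 * π ^ 2 * x ^ 2) ≤ 2 * π ^ 2 * x ^ s := by
  rcases le_total x 1 with h | h
  · refine (min_le_right _ _).trans (mul_le_mul_of_nonneg_left ?_ (by positivity))
    have := Real.rpow_le_rpow_of_exponent_ge hx h hs1
    rwa [Real.rpow_two] at this
  · refine (min_le_left _ _).trans ?_
    have h1 := Real.one_le_rpow h hs0
    have h2 := Real.pi_gt_three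
    have h3 : 1 ≤ π ^ 2 := by nlinarith
    nlinarith

theorem mem_blk {N q n : ℕ} (h : n ∈ blk N q) : 1 ≤ n ∧ rt n ^ 2 * q = n ∧ 1 ≤ rt n ∧ 1 ≤ q := by
  unfold blk at h
  rw [mem_filter, mem_Icc] at h
  have h1 := rt_sf n
  rw [h.2] at h1
  refine ⟨h.1.1, h1, ?_, ?_⟩
  · by_contra hc
    have h2 : rt n = 0 := by omega
    rw [h2] at h1
    simp at h1
    omega
  · by_contra hc
    have h2 : q = 0 := by omega
    rw [h2] at h1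
    simp at h1
    omega

/-- `n ^ a` for `n` in a block -/
theorem pow_blk {N q n : ℕ} (h : n ∈ blk N q) :
    (n : ℝ) ^ (-(101 / 200) : ℝ) =
      (q : ℝ) ^ (-(101 / 200) : ℝ) * (rt n : ℝ) ^ (-(101 / 100) : ℝ) := by
  obtain ⟨h1, h2, h3, h4⟩ := mem_blk h
  have e : (n : ℝ) = (rt n : ℝ) ^ (2 : ℝ) * q := by
    rw [Real.rpow_two]
    exact_mod_cast h2.symm
  have h0 : (0 : ℝ) ≤ rt n := Nat.cast_nonneg _
  conv_lhs => rw [e]
  rw [Real.mul_rpow (by positivity) (Nat.cast_nonneg _), ← Real.rpow_mul h0, mul_comm]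
  norm_num

/-- the sum over `m ≥ 1` of `m ^ (-1.01)` -/
noncomputable def Z : ℝ := ∑' m : ℕ, (m : ℝ) ^ (-(101 / 100) : ℝ)

theorem Z_sum : Summable fun m : ℕ => (m : ℝ) ^ (-(101 / 100) : ℝ) :=
  Real.summable_nat_rpow.2 (by norm_num)

theorem Z_nonneg : 0 ≤ Z := tsum_nonneg fun m => Real.rpow_nonneg (Nat.cast_nonneg _) _

theorem sum_le_Z (s : Finset ℕ) : ∑ m ∈ s, (m : ℝ) ^ (-(101 / 100) : ℝ) ≤ Z :=
  Z_sum.sum_le_tsum s fun m _ => Real.rpow_nonneg (Nat.cast_nonneg _) _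

theorem blk_le_Z (N q : ℕ) : ∑ n ∈ blk N q, (rt n : ℝ) ^ (-(101 / 100) : ℝ) ≤ Z := by
  have hinj : Set.InjOn rt (blk N q : Set ℕ) := by
    intro a ha b hb hab
    have h1 := (mem_blk (mem_coe.1 ha)).2.1
    have h2 := (mem_blk (mem_coe.1 hb)).2.1
    rw [← h1, ← h2, hab]
  have h := sum_image (f := fun m : ℕ => (m : ℝ) ^ (-(101 / 100) : ℝ)) hinj
  rw [← h]
  exact sum_le_Z _

theorem Bh_nonneg (N q : ℕ) {h : ℝ} (hh : 0 < h) : 0 ≤ Bh N q h := by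
  unfold Bh
  refine sum_nonneg fun n _ => mul_nonneg (cf_nonneg n) (le_min (by norm_num) (by positivity))

theorem Vh_nonneg (N q : ℕ) {h : ℝ} (hh : 0 < h) : 0 ≤ Vh N q h := by
  unfold Vh
  refine sum_nonneg fun n _ => mul_nonneg (by positivity) (le_min (by norm_num) (by positivity))

theorem Bh_le {A : ℝ} (hA0 : 0 < A)
    (hA : ∀ n : ℕ, 1 ≤ n → cf n ≤ A * (n : ℝ) ^ (-(37 / 50) : ℝ)) (N q : ℕ) {h : ℝ} (hh : 0 < h) :
    Bh N q h ≤ 2 * π * A * Z * (q : ℝ) ^ (-(101 / 200) : ℝ) * h ^ (47 / 100 : ℝ) := by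
  have hterm : ∀ n ∈ blk N q, cf n * min 2 (2 * π * (√n * h)) ≤
      2 * π * A * (q : ℝ) ^ (-(101 / 200) : ℝ) * h ^ (47 / 100 : ℝ) *
        (rt n : ℝ) ^ (-(101 / 100) : ℝ) := by
    intro n hn
    have h1 := (mem_blk hn).1
    have hn0 : (0 : ℝ) < n := by exact_mod_cast h1
    have hx : 0 < √(n : ℝ) * h := mul_pos (Real.sqrt_pos.2 hn0) hh
    have h2 := min_one (s := 47 / 100) hx (by norm_num) (by norm_num)
    have h3 : (√(n : ℝ) * h) ^ (47 / 100 : ℝ) = (n : ℝ) ^ (47 / 200 : ℝ) * h ^ (47 / 100 : ℝ) := by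
      rw [Real.mul_rpow (Real.sqrt_nonneg _) hh.le, Real.sqrt_eq_rpow, ← Real.rpow_mul hn0.le]
      norm_num
    have h4 : (n : ℝ) ^ (-(37 / 50) : ℝ) * (n : ℝ) ^ (47 / 200 : ℝ) =
        (n : ℝ) ^ (-(101 / 200) : ℝ) := by
      rw [← Real.rpow_add hn0]
      norm_num
    calc cf n * min 2 (2 * π * (√n * h))
        ≤ (A * (n : ℝ) ^ (-(37 / 50) : ℝ)) * (2 * π * (√(n : ℝ) * h) ^ (47 / 100 : ℝ)) :=
          mul_le_mul (hA n h1) h2 (le_min (by norm_num) (by positivity)) (by positivity)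
      _ = 2 * π * A * ((n : ℝ) ^ (-(37 / 50) : ℝ) * (n : ℝ) ^ (47 / 200 : ℝ)) *
            h ^ (47 / 100 : ℝ) := by
          rw [h3]
          ring
      _ = _ := by
          rw [h4, pow_blk hn]
          ring
  unfold Bh
  refine (sum_le_sum hterm).trans ?_
  rw [← mul_sum]
  have h5 := blk_le_Z N q
  have h6 : 0 ≤ 2 * π * A * (q : ℝ) ^ (-(101 / 200) : ℝ) * h ^ (47 / 100 : ℝ) := by positivity
  calc 2 * π * A * (q : ℝ) ^ (-(101 / 200) : ℝ) * h ^ (47 / 100 : ℝ) *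
        ∑ n ∈ blk N q, (rt n : ℝ) ^ (-(101 / 100) : ℝ)
      ≤ 2 * π * A * (q : ℝ) ^ (-(101 / 200) : ℝ) * h ^ (47 / 100 : ℝ) * Z :=
        mul_le_mul_of_nonneg_left h5 h6
    _ = _ := by ring

theorem Vh_le {A : ℝ} (hA0 : 0 < A)
    (hA : ∀ n : ℕ, 1 ≤ n → cf n ≤ A * (n : ℝ) ^ (-(37 / 50) : ℝ)) (N q : ℕ) {h : ℝ} (hh : 0 < h) :
    Vh N q h ≤ 2 * π ^ 2 * A ^ 2 * Z * (q : ℝ) ^ (-(101 / 200) : ℝ) * h ^ (39 / 20 : ℝ) := by
  have hterm : ∀ n ∈ blk N q, cf n ^ 2 * min 2 (2 * π ^ 2 * (n * h ^ 2)) ≤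
      2 * π ^ 2 * A ^ 2 * (q : ℝ) ^ (-(101 / 200) : ℝ) * h ^ (39 / 20 : ℝ) *
        (rt n : ℝ) ^ (-(101 / 100) : ℝ) := by
    intro n hn
    have h1 := (mem_blk hn).1
    have hn0 : (0 : ℝ) < n := by exact_mod_cast h1
    have hx : 0 < √(n : ℝ) * h := mul_pos (Real.sqrt_pos.2 hn0) hh
    have h2 := min_two (s := 39 / 20) hx (by norm_num) (by norm_num)
    have e : (√(n : ℝ) * h) ^ 2 = n * h ^ 2 := by
      rw [mul_pow, Real.sq_sqrt hn0.le]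
    rw [e] at h2
    have h3 : (√(n : ℝ) * h) ^ (39 / 20 : ℝ) = (n : ℝ) ^ (39 / 40 : ℝ) * h ^ (39 / 20 : ℝ) := by
      rw [Real.mul_rpow (Real.sqrt_nonneg _) hh.le, Real.sqrt_eq_rpow, ← Real.rpow_mul hn0.le]
      norm_num
    have h4 : ((n : ℝ) ^ (-(37 / 50) : ℝ)) ^ 2 * (n : ℝ) ^ (39 / 40 : ℝ) =
        (n : ℝ) ^ (-(101 / 200) : ℝ) := by
      rw [← Real.rpow_natCast, ← Real.rpow_mul hn0.le, ← Real.rpow_add hn0]
      norm_num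
    have h5 : cf n ^ 2 ≤ (A * (n : ℝ) ^ (-(37 / 50) : ℝ)) ^ 2 :=
      pow_le_pow_left₀ (cf_nonneg n) (hA n h1) 2
    calc cf n ^ 2 * min 2 (2 * π ^ 2 * (n * h ^ 2))
        ≤ (A * (n : ℝ) ^ (-(37 / 50) : ℝ)) ^ 2 * (2 * π ^ 2 * (√(n : ℝ) * h) ^ (39 / 20 : ℝ)) :=
          mul_le_mul h5 h2 (le_min (by norm_num) (by positivity)) (by positivity)
      _ = 2 * π ^ 2 * A ^ 2 * (((n : ℝ) ^ (-(37 / 50) : ℝ)) ^ 2 * (n : ℝ) ^ (39 / 40 : ℝ)) *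
            h ^ (39 / 20 : ℝ) := by
          rw [h3]
          ring
      _ = _ := by
          rw [h4, pow_blk hn]
          ring
  unfold Vh
  refine (sum_le_sum hterm).trans ?_
  rw [← mul_sum]
  have h5 := blk_le_Z N q
  have h6 : 0 ≤ 2 * π ^ 2 * A ^ 2 * (q : ℝ) ^ (-(101 / 200) : ℝ) * h ^ (39 / 20 : ℝ) := by
    positivity
  calc 2 * π ^ 2 * A ^ 2 * (q : ℝ) ^ (-(101 / 200) : ℝ) * h ^ (39 / 20 : ℝ) *
        ∑ n ∈ blk N q, (rt n : ℝ) ^ (-(101 / 100) : ℝ)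
      ≤ 2 * π ^ 2 * A ^ 2 * (q : ℝ) ^ (-(101 / 200) : ℝ) * h ^ (39 / 20 : ℝ) * Z :=
        mul_le_mul_of_nonneg_left h5 h6
    _ = _ := by ring

theorem t_BLK : S_BLK := by
  obtain ⟨A, hA0, hA⟩ := cf_le
  have hZ := Z_nonneg
  obtain ⟨B1, hB1⟩ : ∃ B1 : ℝ, B1 = 2 * π * A * Z := ⟨_, rfl⟩
  obtain ⟨B2, hB2⟩ : ∃ B2 : ℝ, B2 = 2 * π ^ 2 * A ^ 2 * Z := ⟨_, rfl⟩
  have hB10 : 0 ≤ B1 := by rw [hB1]; positivity
  have hB20 : 0 ≤ B2 := by rw [hB2]; positivity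
  refine ⟨B1 * B2 * Z + B1 ^ 2 * B2 * Z + 1, by positivity, ?_⟩
  intro N h hh hh1
  have hq : ∀ q ∈ Icc 1 N, 0 < (q : ℝ) ∧ 1 ≤ (q : ℝ) := by
    intro q hq
    rw [mem_Icc] at hq
    have : (1 : ℝ) ≤ q := by exact_mod_cast hq.1
    exact ⟨by linarith, this⟩
  constructor
  · have h1 : ∀ q ∈ Icc 1 N, Bh N q h * Vh N q h ≤
        B1 * B2 * h ^ (9 / 4 : ℝ) * (q : ℝ) ^ (-(101 / 100) : ℝ) := by
      intro q hq'
      obtain ⟨hq0, hq1⟩ := hq q hq'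
      have e1 : (q : ℝ) ^ (-(101 / 100) : ℝ) =
          (q : ℝ) ^ (-(101 / 200) : ℝ) * (q : ℝ) ^ (-(101 / 200) : ℝ) := by
        rw [← Real.rpow_add hq0]
        norm_num
      have e2 : h ^ (47 / 100 : ℝ) * h ^ (39 / 20 : ℝ) ≤ h ^ (9 / 4 : ℝ) := by
        rw [← Real.rpow_add hh]
        exact Real.rpow_le_rpow_of_exponent_ge hh hh1 (by norm_num)
      calc Bh N q h * Vh N q h
          ≤ (2 * π * A * Z * (q : ℝ) ^ (-(101 / 200) : ℝ) * h ^ (47 / 100 : ℝ)) *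
            (2 * π ^ 2 * A ^ 2 * Z * (q : ℝ) ^ (-(101 / 200) : ℝ) * h ^ (39 / 20 : ℝ)) :=
            mul_le_mul (Bh_le hA0 hA N q hh) (Vh_le hA0 hA N q hh) (Vh_nonneg N q hh)
              (by positivity)
        _ = B1 * B2 * (h ^ (47 / 100 : ℝ) * h ^ (39 / 20 : ℝ)) *
              (q : ℝ) ^ (-(101 / 100) : ℝ) := by
            rw [e1, hB1, hB2]
            ring
        _ ≤ B1 * B2 * h ^ (9 / 4 : ℝ) * (q : ℝ) ^ (-(101 / 100) : ℝ) := by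
            gcongr
    refine (sum_le_sum h1).trans ?_
    rw [← mul_sum]
    have h2 := sum_le_Z (Icc 1 N)
    have h3 : 0 ≤ h ^ (9 / 4 : ℝ) := Real.rpow_nonneg hh.le _
    calc B1 * B2 * h ^ (9 / 4 : ℝ) * ∑ q ∈ Icc 1 N, (q : ℝ) ^ (-(101 / 100) : ℝ)
        ≤ B1 * B2 * h ^ (9 / 4 : ℝ) * Z := mul_le_mul_of_nonneg_left h2 (by positivity)
      _ = B1 * B2 * Z * h ^ (9 / 4 : ℝ) := by ring
      _ ≤ (B1 * B2 * Z + B1 ^ 2 * B2 * Z + 1) * h ^ (9 / 4 : ℝ) := by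
          refine mul_le_mul_of_nonneg_right ?_ h3
          have : 0 ≤ B1 ^ 2 * B2 * Z := by positivity
          linarith
  · have h1 : ∀ q ∈ Icc 1 N, Bh N q h ^ 2 * Vh N q h ≤
        B1 ^ 2 * B2 * h ^ (5 / 2 : ℝ) * (q : ℝ) ^ (-(101 / 100) : ℝ) := by
      intro q hq'
      obtain ⟨hq0, hq1⟩ := hq q hq'
      have e1 : ((q : ℝ) ^ (-(101 / 200) : ℝ)) ^ 2 * (q : ℝ) ^ (-(101 / 200) : ℝ) ≤
          (q : ℝ) ^ (-(101 / 100) : ℝ) := by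
        rw [← Real.rpow_natCast, ← Real.rpow_mul hq0.le, ← Real.rpow_add hq0]
        exact Real.rpow_le_rpow_of_exponent_le hq1 (by norm_num)
      have e2 : (h ^ (47 / 100 : ℝ)) ^ 2 * h ^ (39 / 20 : ℝ) ≤ h ^ (5 / 2 : ℝ) := by
        rw [← Real.rpow_natCast, ← Real.rpow_mul hh.le, ← Real.rpow_add hh]
        exact Real.rpow_le_rpow_of_exponent_ge hh hh1 (by norm_num)
      calc Bh N q h ^ 2 * Vh N q h
          ≤ (2 * π * A * Z * (q : ℝ) ^ (-(101 / 200) : ℝ) * h ^ (47 / 100 : ℝ)) ^ 2 *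
            (2 * π ^ 2 * A ^ 2 * Z * (q : ℝ) ^ (-(101 / 200) : ℝ) * h ^ (39 / 20 : ℝ)) :=
            mul_le_mul (pow_le_pow_left₀ (Bh_nonneg N q hh) (Bh_le hA0 hA N q hh) 2)
              (Vh_le hA0 hA N q hh) (Vh_nonneg N q hh) (by positivity)
        _ = B1 ^ 2 * B2 * ((h ^ (47 / 100 : ℝ)) ^ 2 * h ^ (39 / 20 : ℝ)) *
              (((q : ℝ) ^ (-(101 / 200) : ℝ)) ^ 2 * (q : ℝ) ^ (-(101 / 200) : ℝ)) := by
            rw [hB1, hB2]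
            ring
        _ ≤ B1 ^ 2 * B2 * h ^ (5 / 2 : ℝ) * (q : ℝ) ^ (-(101 / 100) : ℝ) := by
            gcongr
    refine (sum_le_sum h1).trans ?_
    rw [← mul_sum]
    have h2 := sum_le_Z (Icc 1 N)
    have h3 : 0 ≤ h ^ (5 / 2 : ℝ) := Real.rpow_nonneg hh.le _
    calc B1 ^ 2 * B2 * h ^ (5 / 2 : ℝ) * ∑ q ∈ Icc 1 N, (q : ℝ) ^ (-(101 / 100) : ℝ)
        ≤ B1 ^ 2 * B2 * h ^ (5 / 2 : ℝ) * Z := mul_le_mul_of_nonneg_left h2 (by positivity)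
      _ = B1 ^ 2 * B2 * Z * h ^ (5 / 2 : ℝ) := by ring
      _ ≤ (B1 * B2 * Z + B1 ^ 2 * B2 * Z + 1) * h ^ (5 / 2 : ℝ) := by
          refine mul_le_mul_of_nonneg_right ?_ h3
          have : 0 ≤ B1 * B2 * Z := by positivity
          linarith

end Pool.Agent.U97.LB
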